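import Pool.Agent.H76.SW.CT

/-!
Every query has a code.
-/

namespace Pool.Agent.H51.SW

open Pool.Agent.H76.SW

theorem codesAut_exists {Λ : Type} [Fintype Λ] {st : ℕ} (nm : Λ → ℕ)
    (M : NFA (Λ × Bool) (Fin st)) : ∃ x : AutC, CodesAut nm M x := by
  classical
  refine ⟨((st, ((Finset.univ.filter fun s => s ∈ M.start).toList.map (fun s : Fin st => (s : ℕ)),
    (Finset.univ.filter fun s => s ∈ M.accept).toList.map (fun s : Fin st => (s : ℕ)))),
    ((Finset.univ : Finset ((Fin st × (Λ × Bool)) × Fin st)).filter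
      fun p => p.2 ∈ M.step p.1.1 p.1.2).toList.map
      (fun p => (((p.1.1 : ℕ), (nm p.1.2.1, p.1.2.2)), (p.2 : ℕ)))), rfl, ?_, ?_, ?_⟩
  · intro n
    simp only [List.mem_map, Finset.mem_toList, Finset.mem_filter, Finset.mem_univ, true_and]
  · intro n
    simp only [List.mem_map, Finset.mem_toList, Finset.mem_filter, Finset.mem_univ, true_and]
  · intro y
    simp only [List.mem_map, Finset.mem_toList, Finset.mem_filter, Finset.mem_univ, true_and]
    constructor
    · rintro ⟨p, hp, rfl⟩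
      exact ⟨p.1.1, p.1.2, p.2, hp, rfl⟩
    · rintro ⟨s, l, s', h, rfl⟩
      exact ⟨((s, l), s'), h, rfl⟩

theorem codesBody_exists {A : Type} [Fintype A] {c : ℕ} (nm : A ⊕ Fin c → ℕ) (b : Body A c) :
    ∃ ats : List AtC, CodesBody nm b b.n ats := by
  classical
  choose x hx using fun i : Fin b.m => codesAut_exists nm (b.aut i)
  refine ⟨List.ofFn fun i : Fin b.m => (((b.src i : ℕ), (b.tgt i : ℕ)), x i), rfl,
    List.length_ofFn, fun i => ⟨x i, ?_, hx i⟩⟩
  rw [List.getElem?_ofFn]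
  simp

theorem codesCRQ_exists {a r : ℕ} (t : CRQ (Fin a) r) : ∃ x : CqC, CodesCRQ t x := by
  obtain ⟨ats, h⟩ := codesBody_exists (nmA a t.c) t.b
  exact ⟨((t.b.n, List.ofFn fun i => (t.out i : ℕ)), ats), h, rfl⟩

theorem pf_CEX : V_EX := by
  intro a r Γ
  induction Γ with
  | nil => exact ⟨[], List.Forall₂.nil⟩
  | cons t Γ ih =>
    obtain ⟨x, hx⟩ := ih
    obtain ⟨y, hy⟩ := codesCRQ_exists t
    exact ⟨y :: x, List.Forall₂.cons hy hx⟩

end Pool.Agent.H51.SW
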